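import Pool.Agent.Lib.MP_a63caf_co.SdMain

set_option autoImplicit false

open Pool.Agent.Lib.MP_a63caf_co in
/-- Every finite group is the automorphism group of a finite locally toroidal abstract 4-polytope,
which moreover is a lattice, has only tetrahedra as facets and has a toroidal vertex-figure.
Faces of rank `j` have `Order.height = j + 1`. -/
theorem Pool.Agent.Results.MP_a63caf_co.Simplicial.result
    (Γ : Type) [Group Γ] [Finite Γ] :
    ∃ (P : Type) (_ : Finite P) (_ : Lattice P) (_ : BoundedOrder P),
      IsPolytope 4 P ∧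
      (∀ F : P, Order.height F = 4 → Nonempty (Set.Iic F ≃o Finset (Fin 4)) ∧ Spherical ⊥ F) ∧
      (∀ v : P, Order.height v = 1 → Spherical v ⊤ ∨ Toroidal v ⊤) ∧
      (∃ v : P, Order.height v = 1 ∧ Toroidal v ⊤) ∧
      Nonempty (Γ ≃* (P ≃o P)) :=
  main_simplicial Γ
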